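import Mathlib
import Pool.Agent.Lib.H38.Tor2.Final2

set_option autoImplicit false

namespace Pool.Agent.Results.MP_d743a5_an.ExplicitThreshold

open MeasureTheory

/-- First Dirichlet eigenvalue of an open set. -/
noncomputable def lam {d : ℕ} (Ω : Set (EuclideanSpace ℝ (Fin d))) : ℝ :=
  sInf {r : ℝ | ∃ u : EuclideanSpace ℝ (Fin d) → ℝ, ContDiff ℝ 1 u ∧ HasCompactSupport u ∧
    tsupport u ⊆ Ω ∧ u ≠ 0 ∧ r = (∫ x, ‖fderiv ℝ u x‖ ^ 2) / (∫ x, u x ^ 2)}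

/-- Torsional rigidity of an open set. -/
noncomputable def tor {d : ℕ} (Ω : Set (EuclideanSpace ℝ (Fin d))) : ℝ :=
  sSup {r : ℝ | ∃ u : EuclideanSpace ℝ (Fin d) → ℝ, ContDiff ℝ 1 u ∧ HasCompactSupport u ∧
    tsupport u ⊆ Ω ∧ u ≠ 0 ∧ r = (∫ x, u x) ^ 2 / (∫ x, ‖fderiv ℝ u x‖ ^ 2)}

/-- The functional `F_q`. -/
noncomputable def F (d : ℕ) (q : ℝ) (Ω : Set (EuclideanSpace ℝ (Fin d))) : ℝ :=
  lam Ω * tor Ω ^ q / (volume Ω).toReal ^ ((q * ((d : ℝ) + 2) - 2) / (d : ℝ))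

/-- For every `d ≥ 1` and every `q ≥ 1 + (5/9) (d + 2) e ^ (d / 2)` the unit ball maximises `F_q`
among all nonempty open subsets of `ℝ ^ d` of finite measure. -/
theorem result :
    ∀ d : ℕ, 1 ≤ d → ∀ q : ℝ, 1 + 5 / 9 * ((d : ℝ) + 2) * Real.exp ((d : ℝ) / 2) ≤ q →
      ∀ Ω : Set (EuclideanSpace ℝ (Fin d)), IsOpen Ω → Ω.Nonempty → volume Ω < ⊤ →
        F d q Ω ≤ F d q (Metric.ball 0 1) := by
  intro d hd q hq Ω hΩ hne hfin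
  have hq1 : 1 < q := by
    refine lt_of_lt_of_le ?_ hq
    have : 0 < 5 / 9 * ((d : ℝ) + 2) * Real.exp ((d : ℝ) / 2) := by positivity
    linarith
  exact Pool.Agent.Lib.H38.Tor.reduce hd hq1
    (fun Ω hΩ hvol => Pool.Agent.Lib.H38.Tor.unit_case2 hd hq hΩ hvol) Ω hΩ hne hfin

end Pool.Agent.Results.MP_d743a5_an.ExplicitThreshold
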