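import Mathlib
import Pool.Agent.Lib.H38.Tor2.Growth2

set_option autoImplicit false

namespace Pool.Agent.Results.MP_d743a5_an.GrowthRate

open MeasureTheory Filter Topology

/-- First Dirichlet eigenvalue of an open set. -/
noncomputable def lam {d : ℕ} (Ω : Set (EuclideanSpace ℝ (Fin d))) : ℝ :=
  sInf {r : ℝ | ∃ u : EuclideanSpace ℝ (Fin d) → ℝ, ContDiff ℝ 1 u ∧ HasCompactSupport u ∧
    tsupport u ⊆ Ω ∧ u ≠ 0 ∧ r = (∫ x, ‖fderiv ℝ u x‖ ^ 2) / (∫ x, u x ^ 2)}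

/-- Torsional rigidity of an open set. -/
noncomputable def tor {d : ℕ} (Ω : Set (EuclideanSpace ℝ (Fin d))) : ℝ :=
  sSup {r : ℝ | ∃ u : EuclideanSpace ℝ (Fin d) → ℝ, ContDiff ℝ 1 u ∧ HasCompactSupport u ∧
    tsupport u ⊆ Ω ∧ u ≠ 0 ∧ r = (∫ x, u x) ^ 2 / (∫ x, ‖fderiv ℝ u x‖ ^ 2)}

/-- The functional `F_q`. -/
noncomputable def F (d : ℕ) (q : ℝ) (Ω : Set (EuclideanSpace ℝ (Fin d))) : ℝ :=
  lam Ω * tor Ω ^ q / (volume Ω).toReal ^ ((q * ((d : ℝ) + 2) - 2) / (d : ℝ))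

/-- The unit ball maximises `F_q` among the nonempty open sets of finite measure. -/
def BallOptimal (d : ℕ) (q : ℝ) : Prop :=
  ∀ Ω : Set (EuclideanSpace ℝ (Fin d)), IsOpen Ω → Ω.Nonempty → volume Ω < ⊤ →
    F d q Ω ≤ F d q (Metric.ball 0 1)

/-- The least threshold. -/
noncomputable def qstar (d : ℕ) : ℝ :=
  sInf {Q : ℝ | 1 < Q ∧ ∀ q : ℝ, Q ≤ q → BallOptimal d q}

/-- Two-sided bounds for the threshold: its logarithm is `(1 - log 2) d` plus a term of exact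
order `d ^ (1 / 3)`; in particular its exponential growth rate is `e / 2`. -/
theorem result :
    (∀ d : ℕ, 216 ≤ d →
      (∀ q : ℝ, (Real.exp 1 / 2) ^ d * Real.exp (27 / 5 * (d : ℝ) ^ ((1 : ℝ) / 3)) ≤ q →
        BallOptimal d q) ∧
      (∀ q : ℝ, 1 ≤ q →
        q ≤ (Real.exp 1 / 2) ^ d * Real.exp ((d : ℝ) ^ ((1 : ℝ) / 3) - 8) / (d : ℝ) ^ 3 →
        ¬ BallOptimal d q)) ∧
    (∀ᶠ d : ℕ in atTop,
      1 / 2 * (d : ℝ) ^ ((1 : ℝ) / 3) ≤ Real.log (qstar d) - (1 - Real.log 2) * d ∧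
      Real.log (qstar d) - (1 - Real.log 2) * d ≤ 27 / 5 * (d : ℝ) ^ ((1 : ℝ) / 3)) ∧
    Tendsto (fun d : ℕ => qstar d ^ (1 / (d : ℝ))) atTop (𝓝 (Real.exp 1 / 2)) := by
  have hupp : ∀ d : ℕ, 216 ≤ d → ∀ q : ℝ, Pool.Agent.Lib.H38.Tor.upp2 d ≤ q →
      BallOptimal d q := by
    intro d hd q hq Ω hΩ hne hfin
    have hq1 : 1 < q := (Pool.Agent.Lib.H38.Tor.upp2_gt_one hd).trans_le hq
    exact Pool.Agent.Lib.H38.Tor.reduce (by omega) hq1
      (fun Ω hΩ hvol => Pool.Agent.Lib.H38.Tor.growth_upper2 hd hq hΩ hvol) Ω hΩ hne hfin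
  have hlow : ∀ d : ℕ, 216 ≤ d → ∀ q : ℝ, 1 ≤ q → q ≤ Pool.Agent.Lib.H38.Tor.low2 d →
      ¬ BallOptimal d q := by
    intro d hd q hq1 hq hopt
    obtain ⟨Ω, hΩ, hne, hfin, hlt⟩ := Pool.Agent.Lib.H38.Tor.growth_lower2 hd hq1 hq
    exact absurd (hopt Ω hΩ hne hfin) (not_le.2 hlt)
  have key : ∀ d : ℕ, 216 ≤ d → 1 ≤ qstar d ∧ Pool.Agent.Lib.H38.Tor.low2 d ≤ qstar d ∧
      qstar d ≤ Pool.Agent.Lib.H38.Tor.upp2 d := by
    intro d hd
    have hmem : Pool.Agent.Lib.H38.Tor.upp2 d ∈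
        {Q : ℝ | 1 < Q ∧ ∀ q : ℝ, Q ≤ q → BallOptimal d q} :=
      ⟨Pool.Agent.Lib.H38.Tor.upp2_gt_one hd, hupp d hd⟩
    refine ⟨le_csInf ⟨_, hmem⟩ (fun Q hQ => hQ.1.le), le_csInf ⟨_, hmem⟩ ?_,
      csInf_le ⟨1, fun Q hQ => hQ.1.le⟩ hmem⟩
    intro Q hQ
    by_contra hcon
    push Not at hcon
    exact hlow d hd Q hQ.1.le hcon.le (hQ.2 Q le_rfl)
  have hlog : ∀ᶠ d : ℕ in atTop,
      1 / 2 * (d : ℝ) ^ ((1 : ℝ) / 3) ≤ Real.log (qstar d) - (1 - Real.log 2) * d ∧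
      Real.log (qstar d) - (1 - Real.log 2) * d ≤ 27 / 5 * (d : ℝ) ^ ((1 : ℝ) / 3) := by
    filter_upwards [eventually_ge_atTop 216, Pool.Agent.Lib.H38.Tor.eventually_poly] with d hd hp
    obtain ⟨h1, h2, h3⟩ := key d hd
    have h4 := Real.log_le_log (Pool.Agent.Lib.H38.Tor.low2_pos hd) h2
    have h5 := Real.log_le_log (by linarith) h3
    rw [Pool.Agent.Lib.H38.Tor.log_low2 hd] at h4
    rw [Pool.Agent.Lib.H38.Tor.log_upp2] at h5
    constructor <;> linarith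
  refine ⟨fun d hd => ⟨hupp d hd, hlow d hd⟩, hlog, ?_⟩
  -- the growth rate
  have hlim0 : Tendsto (fun d : ℕ => 27 / 5 * (d : ℝ) ^ (-(2 : ℝ) / 3)) atTop (𝓝 0) := by
    have h1 : Tendsto (fun x : ℝ => 27 / 5 * x ^ (-((2 : ℝ) / 3))) atTop (𝓝 (27 / 5 * 0)) :=
      (tendsto_rpow_neg_atTop (by norm_num)).const_mul _
    rw [mul_zero] at h1
    refine (h1.comp tendsto_natCast_atTop_atTop).congr (fun d => ?_)
    simp only [Function.comp_apply, neg_div]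
  have hlim : Tendsto (fun d : ℕ => Real.log (qstar d) / d - (1 - Real.log 2)) atTop (𝓝 0) := by
    refine squeeze_zero' ?_ ?_ hlim0
    · filter_upwards [hlog, eventually_ge_atTop 1] with d hd hd1
      have hd0 : (0 : ℝ) < d := by exact_mod_cast hd1
      have h1 : 0 ≤ (d : ℝ) ^ ((1 : ℝ) / 3) := by positivity
      have h2 : 0 ≤ Real.log (qstar d) - (1 - Real.log 2) * d := by linarith [hd.1]
      have h3 : Real.log (qstar d) / d - (1 - Real.log 2) =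
          (Real.log (qstar d) - (1 - Real.log 2) * d) / d := by
        field_simp
      rw [h3]
      positivity
    · filter_upwards [hlog, eventually_ge_atTop 1] with d hd hd1
      have hd0 : (0 : ℝ) < d := by exact_mod_cast hd1
      have h3 : Real.log (qstar d) / d - (1 - Real.log 2) =
          (Real.log (qstar d) - (1 - Real.log 2) * d) / d := by
        field_simp
      rw [h3, div_le_iff₀ hd0]
      refine hd.2.trans (le_of_eq ?_)
      rw [mul_assoc, ← Real.rpow_add_one hd0.ne']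
      norm_num
  have hlim2 : Tendsto (fun d : ℕ => Real.exp (Real.log (qstar d) / d)) atTop
      (𝓝 (Real.exp 1 / 2)) := by
    have h1 : Tendsto (fun d : ℕ => Real.log (qstar d) / d - (1 - Real.log 2) +
        (1 - Real.log 2)) atTop (𝓝 (0 + (1 - Real.log 2))) := hlim.add_const _
    have h2 := (Real.continuous_exp.tendsto _).comp h1
    rw [zero_add, Real.exp_sub, Real.exp_log two_pos] at h2
    refine h2.congr (fun d => ?_)
    simp
  refine hlim2.congr' ?_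
  filter_upwards [eventually_ge_atTop 216] with d hd
  have h1 := (key d hd).1
  rw [Real.rpow_def_of_pos (by linarith)]
  congr 1
  ring

end Pool.Agent.Results.MP_d743a5_an.GrowthRate
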